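import Pool.Agent.H90.MR.StmReal

/-! # Project MR-REAL (helper90): modules LEVYR and CDFR -/

set_option autoImplicit false

namespace Pool.Agent.H31.MR

open Finset MeasureTheory Filter Pool.Agent.H90.MR

theorem levr {Φ : ℝ → ℝ} (hΦ : Continuous Φ) {A B : ℝ → ℝ → ℝ}
    (h : ∀ δ : ℝ, 0 < δ → ∀ η : ℝ, 0 < η → ∀ᶠ N : ℝ in atTop, ∀ t : ℝ,
      B N t ≤ A N (t + δ) + η ∧ A N (t - δ) ≤ B N t + η)
    (hA : ∀ t, Tendsto (fun N => A N t) atTop (nhds (Φ t))) :
    ∀ t, Tendsto (fun N => B N t) atTop (nhds (Φ t)) := by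
  intro t
  rw [Metric.tendsto_nhds]
  intro ε hε
  obtain ⟨δ', hδ', hc⟩ := Metric.continuous_iff.1 hΦ t (ε / 4) (by positivity)
  set δ := δ' / 2 with hδ
  have hδ0 : 0 < δ := by positivity
  have h1 : |Φ (t + δ) - Φ t| < ε / 4 := by
    have := hc (t + δ) (by
      rw [Real.dist_eq, add_sub_cancel_left, abs_of_pos hδ0, hδ]
      linarith)
    rwa [Real.dist_eq] at this
  have h2 : |Φ (t - δ) - Φ t| < ε / 4 := by
    have := hc (t - δ) (by
      rw [Real.dist_eq, sub_sub_cancel_left, abs_neg, abs_of_pos hδ0, hδ]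
      linarith)
    rwa [Real.dist_eq] at this
  filter_upwards [(Metric.tendsto_nhds.1 (hA (t + δ))) (ε / 4) (by positivity),
    (Metric.tendsto_nhds.1 (hA (t - δ))) (ε / 4) (by positivity),
    h δ hδ0 (ε / 4) (by positivity)] with N f1 f2 f5
  obtain ⟨f3, f4⟩ := f5 t
  rw [Real.dist_eq] at f1 f2 ⊢
  rw [abs_lt] at *
  constructor <;> linarith [f1.1, f1.2, f2.1, f2.2, h1.1, h1.2, h2.1, h2.2]

theorem levyr : S_LEVYR := by
  intro Φ hΦ F F' h
  refine ⟨fun hF => levr hΦ h hF, fun hF => levr hΦ (fun δ hδ η hη => ?_) hF⟩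
  filter_upwards [h δ hδ η hη] with N hN t
  have h1 := (hN (t + δ)).2
  have h2 := (hN (t - δ)).1
  rw [add_sub_cancel_right] at h1
  rw [sub_add_cancel] at h2
  exact ⟨h1, h2⟩

theorem cdfr : S_CDFR := by
  unfold S_CDFR
  rw [continuous_iff_continuousAt]
  intro t
  have hna : NullSingletonClass (ProbabilityTheory.gaussianReal 0 1) :=
    ProbabilityTheory.nullSingletonClass_gaussianReal one_ne_zero
  have hm : (ProbabilityTheory.cdf (ProbabilityTheory.gaussianReal 0 1)).measure {t} = 0 := by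
    rw [ProbabilityTheory.measure_cdf]
    exact measure_singleton t
  rw [StieltjesFunction.measure_singleton, ENNReal.ofReal_eq_zero] at hm
  have hmono := (ProbabilityTheory.cdf (ProbabilityTheory.gaussianReal 0 1)).mono
  refine (hmono.continuousAt_iff_leftLim_eq_rightLim).2 ?_
  rw [StieltjesFunction.rightLim_eq]
  exact le_antisymm (hmono.leftLim_le le_rfl) (by linarith)

end Pool.Agent.H31.MR
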